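import Pool.Agent.R303.SW.Lsh

/-!
# The sup norm of the Möbius exponential sum at every length

Let `F_R(x) = ∑_{n ≤ R} μ(n) e(nx)`.  Q1 asks whether `sup |F_R| ≤ C R^(1/2 + ε)`; its negation only asks for large
values for infinitely many `R`.  We show that, if the Riemann hypothesis is false, then the sup norm is large for ALL
large `R`, and for all sums over short blocks.

1. If `ζ` has a zero with real part `> θ ≥ 1/2`, then for EVERY large `R` there is an `x` with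
`|∑_{R < n ≤ R + c R / (log R)^κ} μ(n) e(nx)| ≥ R^θ`, where `4 θ (1 - θ) (κ + 1) ≤ 1`; the same is true for `F_R`
itself, and for the Liouville function.

2. So, if for every `δ > 0` there are arbitrarily large `R` for which the sum over one such block (for instance over
`R < n ≤ 2 R`), or `F_R`, is at most `R^(1/2 + δ)` on the circle, then the Riemann hypothesis is true: Q1 for ONE
sequence of blocks is sufficient.

Method.  The product of the sum over the block with the Dirichlet kernel of length `H = R^(1-ε)` has as its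
coefficients the sums of `μ` over the intervals of length `H` inside the block; by Parseval's formula their mean
square is at most the square of the sup norm, divided by `H` and the length.  The first absolute moment of these short
sums is bounded below, for every `R` and every `H`, by a theorem of the starting library.
-/

set_option autoImplicit false

open MeasureTheory Filter Topology

namespace Pool.Agent.Results.MP_b6b996_nt.EveryBlock

/-- the sum of `a(n) e(nx)` over the block `A < n ≤ B` -/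
noncomputable def F (a : ℕ → ℝ) (A B : ℕ) (x : ℝ) : ℂ :=
  ∑ n ∈ Finset.Ioc A B, ((a n : ℝ) : ℂ) * Complex.exp (2 * Real.pi * Complex.I * n * x)

/-- the Möbius function -/
noncomputable def mu (n : ℕ) : ℝ := ((ArithmeticFunction.moebius n : ℤ) : ℝ)

/-- the Liouville function -/
noncomputable def la (n : ℕ) : ℝ := ((ArithmeticFunction.liouville n : ℤ) : ℝ)

/-- the exponential -/
noncomputable def ex (m : ℕ) (x : ℝ) : ℂ := Complex.exp (2 * Real.pi * Complex.I * m * x)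

lemma ex_add (m n : ℕ) (x : ℝ) : ex (m + n) x = ex m x * ex n x := by
  unfold ex
  rw [← Complex.exp_add]
  congr 1
  push_cast
  ring

lemma ex_cont (m : ℕ) : Continuous (ex m) := by
  unfold ex
  fun_prop

lemma ortho (m n : ℕ) : ∫ x in (0:ℝ)..1, ex m x * (starRingEnd ℂ) (ex n x) = if m = n then 1 else 0 := by
  have h1 : ∀ x : ℝ, ex m x * (starRingEnd ℂ) (ex n x) =
      Complex.exp ((2 * Real.pi * Complex.I * ((m : ℂ) - n)) * x) := by
    intro x
    unfold ex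
    rw [← Complex.exp_conj, ← Complex.exp_add]
    congr 1
    simp only [map_mul, Complex.conj_I, Complex.conj_ofReal, map_ofNat, map_natCast]
    ring
  simp only [h1]
  split_ifs with h
  · rw [h]
    simp
  · have hmn : ((m : ℂ) - n) ≠ 0 := by
      rw [sub_ne_zero]
      exact_mod_cast h
    have hc : (2 * Real.pi * Complex.I * ((m : ℂ) - n)) ≠ 0 :=
      mul_ne_zero Complex.two_pi_I_ne_zero hmn
    rw [integral_exp_mul_complex hc]
    have h2 : Complex.exp (2 * Real.pi * Complex.I * ((m : ℂ) - n) * ((1 : ℝ) : ℂ)) = 1 := by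
      have := Complex.exp_int_mul_two_pi_mul_I ((m : ℤ) - n)
      rw [← this]
      congr 1
      push_cast
      ring
    rw [h2]
    simp

/-- Parseval's formula -/
lemma pars (N : ℕ) (b : ℕ → ℂ) :
    ∫ x in (0:ℝ)..1, ‖∑ m ∈ Finset.range N, b m * ex m x‖ ^ 2 = ∑ m ∈ Finset.range N, ‖b m‖ ^ 2 := by
  have h1 : ∀ x : ℝ, ((‖∑ m ∈ Finset.range N, b m * ex m x‖ ^ 2 : ℝ) : ℂ) =
      ∑ j ∈ Finset.range N, ∑ k ∈ Finset.range N,
        (b j * (starRingEnd ℂ) (b k)) * (ex j x * (starRingEnd ℂ) (ex k x)) := by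
    intro x
    push_cast
    rw [← Complex.mul_conj', map_sum, Finset.sum_mul_sum]
    refine Finset.sum_congr rfl fun j _ => Finset.sum_congr rfl fun k _ => ?_
    rw [map_mul]
    ring
  have hc : ∀ j k, Continuous fun x : ℝ => (b j * (starRingEnd ℂ) (b k)) *
      (ex j x * (starRingEnd ℂ) (ex k x)) := by
    intro j k
    have := ex_cont j
    have := ex_cont k
    fun_prop
  have h3 : ((∫ x in (0:ℝ)..1, ‖∑ m ∈ Finset.range N, b m * ex m x‖ ^ 2 : ℝ) : ℂ) =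
      ((∑ m ∈ Finset.range N, ‖b m‖ ^ 2 : ℝ) : ℂ) := by
    rw [← intervalIntegral.integral_ofReal]
    simp only [h1]
    rw [intervalIntegral.integral_finsetSum]
    swap
    · intro j _
      exact (continuous_finsetSum _ fun k _ => hc j k).intervalIntegrable _ _
    push_cast
    refine Finset.sum_congr rfl fun j hj => ?_
    rw [intervalIntegral.integral_finsetSum]
    swap
    · intro k _
      exact (hc j k).intervalIntegrable _ _
    have h4 : ∀ k, ∫ x in (0:ℝ)..1, (b j * (starRingEnd ℂ) (b k)) * (ex j x * (starRingEnd ℂ) (ex k x)) =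
        if j = k then b j * (starRingEnd ℂ) (b k) else 0 := by
      intro k
      rw [intervalIntegral.integral_const_mul, ortho]
      split_ifs <;> simp
    simp only [h4]
    rw [Finset.sum_ite_eq, if_pos hj, Complex.mul_conj']
  exact_mod_cast h3

/-- the coefficients of the product with the Dirichlet kernel -/
noncomputable def co (a : ℕ → ℝ) (A B H m : ℕ) : ℂ :=
  ∑ n ∈ Finset.Ioc A B, ∑ h ∈ Finset.range H, if n + h = m then ((a n : ℝ) : ℂ) else 0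

lemma prod_eq (a : ℕ → ℝ) (A B H : ℕ) (x : ℝ) :
    F a A B x * ∑ h ∈ Finset.range H, ex h x = ∑ m ∈ Finset.range (B + H + 1), co a A B H m * ex m x := by
  unfold F co
  rw [Finset.sum_mul_sum]
  have h1 : ∀ m ∈ Finset.range (B + H + 1),
      (∑ n ∈ Finset.Ioc A B, ∑ h ∈ Finset.range H, if n + h = m then ((a n : ℝ) : ℂ) else 0) * ex m x =
      ∑ n ∈ Finset.Ioc A B, ∑ h ∈ Finset.range H, if n + h = m then ((a n : ℝ) : ℂ) * ex m x else 0 := by
    intro m _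
    rw [Finset.sum_mul]
    refine Finset.sum_congr rfl fun n _ => ?_
    rw [Finset.sum_mul]
    refine Finset.sum_congr rfl fun h _ => ?_
    split_ifs <;> simp
  symm
  calc ∑ m ∈ Finset.range (B + H + 1),
        (∑ n ∈ Finset.Ioc A B, ∑ h ∈ Finset.range H, if n + h = m then ((a n : ℝ) : ℂ) else 0) * ex m x
      = ∑ m ∈ Finset.range (B + H + 1), ∑ n ∈ Finset.Ioc A B, ∑ h ∈ Finset.range H,
          (if n + h = m then ((a n : ℝ) : ℂ) * ex m x else 0) := Finset.sum_congr rfl h1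
    _ = ∑ n ∈ Finset.Ioc A B, ∑ m ∈ Finset.range (B + H + 1), ∑ h ∈ Finset.range H,
          (if n + h = m then ((a n : ℝ) : ℂ) * ex m x else 0) := Finset.sum_comm
    _ = _ := by
      refine Finset.sum_congr rfl fun n hn => ?_
      rw [Finset.sum_comm]
      refine Finset.sum_congr rfl fun h hh => ?_
      rw [Finset.mem_Ioc] at hn
      rw [Finset.mem_range] at hh
      rw [Finset.sum_ite_eq, if_pos (by rw [Finset.mem_range]; omega), ex_add]
      unfold ex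
      ring

/-- the summatory function -/
noncomputable def T (a : ℕ → ℝ) (m : ℕ) : ℝ := ∑ n ∈ Finset.Icc 1 m, a n

lemma co_eq (a : ℕ → ℝ) (A B H m : ℕ) (h1 : A ≤ m) (h2 : m + H ≤ B) :
    co a A B H (m + H) = ((T a (m + H) - T a m : ℝ) : ℂ) := by
  have h3 : ∀ n, (∑ h ∈ Finset.range H, if n + h = m + H then ((a n : ℝ) : ℂ) else 0) =
      if n ∈ Finset.Ioc m (m + H) then ((a n : ℝ) : ℂ) else 0 := by
    intro n
    by_cases hn : n ∈ Finset.Ioc m (m + H)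
    · rw [if_pos hn]
      rw [Finset.mem_Ioc] at hn
      rw [Finset.sum_eq_single (m + H - n)]
      · rw [if_pos (by omega)]
      · intro h _ hne
        rw [if_neg (by omega)]
      · intro hne
        rw [Finset.mem_range] at hne
        omega
    · rw [if_neg hn]
      rw [Finset.mem_Ioc] at hn
      refine Finset.sum_eq_zero fun h hh => ?_
      rw [Finset.mem_range] at hh
      rw [if_neg (by omega)]
  have h4 : T a (m + H) = T a m + ∑ n ∈ Finset.Ioc m (m + H), a n := by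
    unfold T
    rw [← Finset.sum_union]
    · congr 1
      ext n
      simp only [Finset.mem_union, Finset.mem_Icc, Finset.mem_Ioc]
      omega
    · rw [Finset.disjoint_left]
      intro n h5 h6
      rw [Finset.mem_Icc] at h5
      rw [Finset.mem_Ioc] at h6
      omega
  unfold co
  simp only [h3]
  rw [← Finset.sum_filter, h4, add_sub_cancel_left]
  push_cast
  refine Finset.sum_congr ?_ fun _ _ => rfl
  ext n
  simp only [Finset.mem_filter, Finset.mem_Ioc]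
  omega

/-- the mean square of the sums over the intervals of length `H` is bounded by the sup norm -/
lemma ms_le (a : ℕ → ℝ) (A B R H K : ℕ) (hA : A ≤ R) (hK : R + H + K ≤ B + 1) (S : ℝ)
    (hS : ∀ x ∈ Set.Icc (0:ℝ) 1, ‖F a A B x‖ ≤ S) :
    ∑ j ∈ Finset.range K, |T a (R + j + H) - T a (R + j)| ^ 2 ≤ S ^ 2 * H := by
  have h1 := pars (B + H + 1) (co a A B H)
  have h2 : ∫ x in (0:ℝ)..1, ‖∑ h ∈ Finset.range H, (1 : ℂ) * ex h x‖ ^ 2 = H := by
    rw [pars]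
    simp
  have hFc : Continuous (F a A B) := by
    unfold F
    fun_prop
  have hD : Continuous fun x => ∑ h ∈ Finset.range H, ex h x :=
    continuous_finsetSum _ fun h _ => ex_cont h
  have h3 : ∫ x in (0:ℝ)..1, ‖∑ m ∈ Finset.range (B + H + 1), co a A B H m * ex m x‖ ^ 2 ≤ S ^ 2 * H := by
    have h4 : ∀ x : ℝ, ‖∑ m ∈ Finset.range (B + H + 1), co a A B H m * ex m x‖ ^ 2 =
        ‖F a A B x‖ ^ 2 * ‖∑ h ∈ Finset.range H, ex h x‖ ^ 2 := by
      intro x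
      rw [← prod_eq, norm_mul, mul_pow]
    simp only [h4]
    simp only [one_mul] at h2
    rw [← h2, ← intervalIntegral.integral_const_mul]
    refine intervalIntegral.integral_mono_on zero_le_one
      (((hFc.norm.pow 2).mul (hD.norm.pow 2)).intervalIntegrable _ _)
      (((hD.norm.pow 2).const_mul _).intervalIntegrable _ _) fun x hx => ?_
    exact mul_le_mul_of_nonneg_right (pow_le_pow_left₀ (norm_nonneg _) (hS x hx) 2) (by positivity)
  rw [h1] at h3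
  refine le_trans ?_ h3
  have h5 : ∀ j ∈ Finset.range K, |T a (R + j + H) - T a (R + j)| ^ 2 = ‖co a A B H (R + j + H)‖ ^ 2 := by
    intro j hj
    rw [Finset.mem_range] at hj
    rw [co_eq a A B H (R + j) (by omega) (by omega), Complex.norm_real, Real.norm_eq_abs]
  rw [Finset.sum_congr rfl h5]
  rw [← Finset.sum_image (f := fun m => ‖co a A B H m‖ ^ 2) (g := fun j => R + j + H)
    (s := Finset.range K) (fun i _ j _ hij => by
      have : R + i + H = R + j + H := hij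
      omega)]
  refine Finset.sum_le_sum_of_subset_of_nonneg ?_ fun _ _ _ => by positivity
  intro m hm
  rw [Finset.mem_image] at hm
  obtain ⟨j, hj, rfl⟩ := hm
  rw [Finset.mem_range] at hj ⊢
  omega

open Pool.Agent.R303.SW in
/-- the integral of the step function is a sum -/
lemma int_le (a : ℕ → ℝ) (A H K : ℕ) :
    ∫ y in (A : ℝ)..((A : ℝ) + K), |DG a H y| ≤ ∑ j ∈ Finset.range K, |T a (A + j + H) - T a (A + j)| := by
  have h1 := intervalIntegral.sum_integral_adjacent_intervals (μ := volume) (f := fun y => |DG a H y|)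
    (a := fun j : ℕ => (A : ℝ) + j) (n := K) (fun j _ => (DG_II a H _ _).abs)
  simp only [Nat.cast_zero, add_zero] at h1
  rw [← h1]
  refine Finset.sum_le_sum fun j _ => ?_
  have h2 : ∫ y in ((A : ℝ) + j)..((A : ℝ) + (j + 1 : ℕ)), |DG a H y| ≤
      ∫ _y in ((A : ℝ) + j)..((A : ℝ) + (j + 1 : ℕ)), |T a (A + j + H) - T a (A + j)| := by
    refine intervalIntegral.integral_mono_on_of_le_Ioo (by push_cast; linarith) (DG_II a H _ _).abs
      intervalIntegrable_const fun y hy => ?_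
    rw [Set.mem_Ioo] at hy
    push_cast at hy
    have e1 : ⌊y⌋₊ = A + j := by
      rw [Nat.floor_eq_iff (by
        have : (0:ℝ) ≤ (A : ℝ) + j := by positivity
        linarith)]
      push_cast
      constructor <;> linarith
    have e2 : ⌊y + H⌋₊ = A + j + H := by
      rw [Nat.floor_add_natCast (by
        have : (0:ℝ) ≤ (A : ℝ) + j := by positivity
        linarith), e1]
    unfold DG Pool.Agent.W190.SF
    rw [e1, e2]
    rfl
  refine h2.trans (le_of_eq ?_)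
  rw [intervalIntegral.integral_const, smul_eq_mul]
  push_cast
  ring

open Pool.Agent.R303.SW in
/-- the lower bound for the first moment over short intervals -/
def Short (a : ℕ → ℝ) : Prop := ∀ θ κ c e0 : ℝ, 0 ≤ κ → 0 < c → 1 / 2 ≤ θ → 4 * θ * (1 - θ) * (κ + 1) ≤ 1 →
  (∃ s : ℂ, riemannZeta s = 0 ∧ θ < s.re) → 0 < e0 →
  ∀ᶠ X : ℝ in atTop, ∀ H : ℝ, 0 < H → H ≤ X ^ (1 - e0) →
    H * X ^ θ ≤ ∫ y in X..(X + c * X / Real.log X ^ κ), |DG a H y|

open Pool.Agent.R303.SW in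
lemma short_mu : Short mu := by
  intro θ κ c e0 h1 h2 h3 h4 h5 h6
  exact mertens_short h1 h2 h3 h4 h5 h6

open Pool.Agent.R303.SW in
lemma short_la : Short la := by
  intro θ κ c e0 h1 h2 h3 h4 h5 h6
  exact liou_short h1 h2 h3 h4 h5 h6

open Pool.Agent.R303.SW in
lemma every_block {a : ℕ → ℝ} (ha : Short a) {θ κ c : ℝ} (hθ : 1 / 2 ≤ θ) (hκ : 0 ≤ κ)
    (hcond : 4 * θ * (1 - θ) * (κ + 1) ≤ 1) (hc : 0 < c) (hz : ∃ s : ℂ, riemannZeta s = 0 ∧ θ < s.re) :
    ∀ᶠ R : ℕ in atTop, ∀ A B : ℕ, A ≤ R → (R : ℝ) + c * R / Real.log R ^ κ ≤ B + 1 →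
      ∃ x ∈ Set.Icc (0:ℝ) 1, (R : ℝ) ^ θ ≤ ‖F a A B x‖ := by
  obtain ⟨s, hs, hsθ⟩ := hz
  obtain ⟨θ', hθ'⟩ : ∃ θ', θ' = (θ + s.re) / 2 := ⟨_, rfl⟩
  have hθ1 : θ < θ' := by rw [hθ']; linarith
  have hθ2 : θ' < s.re := by rw [hθ']; linarith
  have hcond' : 4 * θ' * (1 - θ') * (κ + 1) ≤ 1 := by
    refine le_trans ?_ hcond
    refine mul_le_mul_of_nonneg_right ?_ (by linarith)
    nlinarith
  obtain ⟨e0, he⟩ : ∃ e0, e0 = min (θ' - θ) (1 / 2) := ⟨_, rfl⟩
  have he0 : 0 < e0 := by rw [he]; exact lt_min (by linarith) (by norm_num)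
  have he1 : e0 ≤ θ' - θ := by rw [he]; exact min_le_left _ _
  have he2 : e0 ≤ 1 / 2 := by rw [he]; exact min_le_right _ _
  have h1 := ha θ' κ (c / 3) e0 hκ (by linarith) (by linarith) hcond' ⟨s, hs, hθ2⟩ he0
  have hnat : Tendsto (fun R : ℕ => (R : ℝ)) atTop atTop := tendsto_natCast_atTop_atTop
  have t1 : ∀ᶠ X : ℝ in atTop, 2 * (c + 1) < X ^ (θ' - θ) :=
    (tendsto_rpow_atTop (by linarith)).eventually_gt_atTop _
  have t2 : ∀ᶠ X : ℝ in atTop, X ^ (1 - e0) + 2 ≤ (c / 3) * X / Real.log X ^ κ := by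
    have h3 := (isLittleO_log_rpow_rpow_atTop κ (by positivity : 0 < e0 / 2)).bound (c := c / 9) (by linarith)
    have h4 : ∀ᶠ X : ℝ in atTop, (3 : ℝ) * 3 / c ≤ X ^ (e0 / 2) :=
      (tendsto_rpow_atTop (by linarith)).eventually_ge_atTop _
    filter_upwards [h3, eventually_ge_atTop (Real.exp 1), eventually_ge_atTop 4] with X g1 g3 g4
    have hX : 0 < X := by linarith
    have hL : 1 ≤ Real.log X := (Real.le_log_iff_exp_le hX).2 g3
    have hL0 : 0 < Real.log X ^ κ := Real.rpow_pos_of_pos (by linarith) _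
    rw [Real.norm_of_nonneg hL0.le, Real.norm_of_nonneg (by positivity)] at g1
    rw [le_div_iff₀ hL0]
    have e1 : 1 ≤ X ^ (1 - e0) := Real.one_le_rpow (by linarith) (by linarith)
    have e2 : X ^ (1 - e0) * X ^ (e0 / 2) ≤ X := by
      rw [← Real.rpow_add hX]
      conv_rhs => rw [← Real.rpow_one X]
      exact Real.rpow_le_rpow_of_exponent_le (by linarith) (by linarith)
    calc (X ^ (1 - e0) + 2) * Real.log X ^ κ ≤ (3 * X ^ (1 - e0)) * (c / 9 * X ^ (e0 / 2)) := by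
          gcongr
          linarith
      _ = c / 3 * (X ^ (1 - e0) * X ^ (e0 / 2)) := by ring
      _ ≤ c / 3 * X := by gcongr
  filter_upwards [hnat.eventually h1, hnat.eventually t1, hnat.eventually t2,
    hnat.eventually (eventually_ge_atTop (Real.exp 1)), hnat.eventually (eventually_ge_atTop 4)] with
    R g1 g2 g3 g4 g5 A B hA hB
  by_contra hcon
  push Not at hcon
  have hR : (0:ℝ) < R := by linarith
  have hL : 1 ≤ Real.log R := (Real.le_log_iff_exp_le hR).2 g4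
  have hL1 : 1 ≤ Real.log R ^ κ := Real.one_le_rpow hL hκ
  have hL0 : 0 < Real.log R ^ κ := by linarith
  obtain ⟨w, hw⟩ : ∃ w, w = (c / 3) * R / Real.log R ^ κ := ⟨_, rfl⟩
  rw [← hw] at g3
  have hw3 : c * R / Real.log R ^ κ = 3 * w := by rw [hw]; ring
  rw [hw3] at hB
  have hRe : 1 ≤ (R : ℝ) ^ (1 - e0) := Real.one_le_rpow (by linarith) (by linarith)
  have hw0 : 0 ≤ w := by linarith
  have hwc : w ≤ c / 3 * R := by
    rw [hw]
    exact div_le_self (by positivity) hL1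
  obtain ⟨H, hHd⟩ : ∃ H, H = ⌊(R : ℝ) ^ (1 - e0)⌋₊ := ⟨_, rfl⟩
  obtain ⟨K, hKd⟩ : ∃ K, K = ⌈w⌉₊ := ⟨_, rfl⟩
  have hH1 : 1 ≤ H := by
    rw [hHd]
    exact Nat.le_floor (by simpa using hRe)
  have hHle : (H : ℝ) ≤ (R : ℝ) ^ (1 - e0) := by
    rw [hHd]
    exact Nat.floor_le (by positivity)
  have hHge : (R : ℝ) ^ (1 - e0) ≤ 2 * H := by
    have h5 := Nat.lt_floor_add_one ((R : ℝ) ^ (1 - e0))
    rw [← hHd] at h5
    have h6 : (1:ℝ) ≤ H := by exact_mod_cast hH1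
    linarith
  have hKge : w ≤ K := by
    rw [hKd]
    exact Nat.le_ceil _
  have hKle : (K : ℝ) ≤ w + 1 := by
    rw [hKd]
    exact (Nat.ceil_lt_add_one hw0).le
  have hKB : R + H + K ≤ B + 1 := by
    have : ((R + H + K : ℕ) : ℝ) ≤ ((B + 1 : ℕ) : ℝ) := by
      push_cast
      linarith
    exact_mod_cast this
  have hH0 : (0:ℝ) < H := by exact_mod_cast hH1
  have k1 := g1 H hH0 hHle
  rw [← hw] at k1
  have k2 : ∫ y in (R:ℝ)..((R:ℝ) + w), |DG a H y| ≤ ∫ y in (R:ℝ)..((R:ℝ) + K), |DG a H y| := by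
    refine intervalIntegral.integral_mono_interval le_rfl (by linarith) (by linarith) ?_ (DG_II a H _ _).abs
    exact Filter.Eventually.of_forall fun _ => abs_nonneg _
  have k3 := (k1.trans k2).trans (int_le a R H K)
  have k4 := ms_le a A B R H K hA hKB ((R:ℝ) ^ θ) (fun x hx => (hcon x hx).le)
  have k5 := sq_sum_le_card_mul_sum_sq (s := Finset.range K)
    (f := fun j => |T a (R + j + H) - T a (R + j)|)
  rw [Finset.card_range] at k5
  have k6 : (H * (R:ℝ) ^ θ') ^ 2 ≤ K * (((R:ℝ) ^ θ) ^ 2 * H) := by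
    calc (H * (R:ℝ) ^ θ') ^ 2 ≤ (∑ j ∈ Finset.range K, |T a (R + j + H) - T a (R + j)|) ^ 2 :=
          pow_le_pow_left₀ (by positivity) k3 2
      _ ≤ K * ∑ j ∈ Finset.range K, |T a (R + j + H) - T a (R + j)| ^ 2 := k5
      _ ≤ _ := by gcongr
  have k7 : (H : ℝ) * ((R:ℝ) ^ θ') ^ 2 ≤ K * ((R:ℝ) ^ θ) ^ 2 := by
    have h8 : (H : ℝ) * (H * ((R:ℝ) ^ θ') ^ 2) ≤ H * (K * ((R:ℝ) ^ θ) ^ 2) := by nlinarith
    exact le_of_mul_le_mul_left h8 hH0
  have k8 : (K : ℝ) ≤ (c + 1) * R := by nlinarith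
  have e3 : ((R:ℝ) ^ θ') ^ 2 = ((R:ℝ) ^ θ) ^ 2 * ((R:ℝ) ^ (θ' - θ)) ^ 2 := by
    rw [← mul_pow, ← Real.rpow_add hR]
    congr 2
    ring
  have hRθ : 0 < ((R:ℝ) ^ θ) ^ 2 := by positivity
  rw [e3] at k7
  have k9 : (H : ℝ) * ((R:ℝ) ^ (θ' - θ)) ^ 2 ≤ (c + 1) * R := by
    have h8 : ((R:ℝ) ^ θ) ^ 2 * ((H : ℝ) * ((R:ℝ) ^ (θ' - θ)) ^ 2) ≤ ((R:ℝ) ^ θ) ^ 2 * K := by
      calc ((R:ℝ) ^ θ) ^ 2 * ((H : ℝ) * ((R:ℝ) ^ (θ' - θ)) ^ 2) =
          (H : ℝ) * (((R:ℝ) ^ θ) ^ 2 * ((R:ℝ) ^ (θ' - θ)) ^ 2) := by ring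
        _ ≤ K * ((R:ℝ) ^ θ) ^ 2 := k7
        _ = _ := by ring
    exact (le_of_mul_le_mul_left h8 hRθ).trans k8
  have e4 : (R:ℝ) * (R:ℝ) ^ (θ' - θ) ≤ (R:ℝ) ^ (1 - e0) * ((R:ℝ) ^ (θ' - θ)) ^ 2 := by
    have e5 : (R:ℝ) ^ (1 - e0) * ((R:ℝ) ^ (θ' - θ)) ^ 2 = (R:ℝ) ^ (1 - e0 + 2 * (θ' - θ)) := by
      rw [← Real.rpow_natCast ((R:ℝ) ^ (θ' - θ)) 2, ← Real.rpow_mul hR.le, ← Real.rpow_add hR]
      congr 1
      push_cast
      ring
    have e6 : (R:ℝ) * (R:ℝ) ^ (θ' - θ) = (R:ℝ) ^ (1 + (θ' - θ)) := by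
      rw [Real.rpow_add hR, Real.rpow_one]
    rw [e5, e6]
    exact Real.rpow_le_rpow_of_exponent_le (by linarith) (by linarith)
  have k10 : (R:ℝ) ^ (1 - e0) * ((R:ℝ) ^ (θ' - θ)) ^ 2 ≤ 2 * ((c + 1) * R) := by
    calc (R:ℝ) ^ (1 - e0) * ((R:ℝ) ^ (θ' - θ)) ^ 2 ≤ 2 * H * ((R:ℝ) ^ (θ' - θ)) ^ 2 := by gcongr
      _ = 2 * (H * ((R:ℝ) ^ (θ' - θ)) ^ 2) := by ring
      _ ≤ _ := by linarith
  have k11 : (R:ℝ) * (R:ℝ) ^ (θ' - θ) ≤ (R:ℝ) * (2 * (c + 1)) := by
    calc (R:ℝ) * (R:ℝ) ^ (θ' - θ) ≤ 2 * ((c + 1) * R) := e4.trans k10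
      _ = _ := by ring
  have := le_of_mul_le_mul_left k11 hR
  linarith

/-- the sums over `n ≤ R` -/
lemma full_sum {a : ℕ → ℝ} (ha : Short a) {θ : ℝ} (hθ : 1 / 2 ≤ θ)
    (hz : ∃ s : ℂ, riemannZeta s = 0 ∧ θ < s.re) :
    ∀ᶠ R : ℕ in atTop, ∃ x ∈ Set.Icc (0:ℝ) 1, (R : ℝ) ^ θ ≤ ‖F a 0 R x‖ := by
  obtain ⟨s, hs, hsθ⟩ := hz
  obtain ⟨θ', hθ'⟩ : ∃ θ', θ' = (θ + s.re) / 2 := ⟨_, rfl⟩
  have hθ1 : θ < θ' := by rw [hθ']; linarith
  have h1 := every_block ha (θ := θ') (κ := 0) (c := 1) (by linarith) le_rfl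
    (by nlinarith [sq_nonneg (2 * θ' - 1)]) one_pos ⟨s, hs, by rw [hθ']; linarith⟩
  obtain ⟨R₀, hR₀⟩ := eventually_atTop.1 h1
  have hnat : Tendsto (fun R : ℕ => (R : ℝ)) atTop atTop := tendsto_natCast_atTop_atTop
  have t1 : ∀ᶠ X : ℝ in atTop, (3:ℝ) ^ θ' ≤ X ^ (θ' - θ) :=
    (tendsto_rpow_atTop (by linarith)).eventually_ge_atTop _
  filter_upwards [hnat.eventually t1, eventually_ge_atTop (2 * R₀ + 3)] with R g1 g2
  obtain ⟨x, hx, hx2⟩ := hR₀ (R / 2) (by omega) 0 R (Nat.zero_le _) (by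
    rw [Real.rpow_zero, div_one, one_mul]
    have : ((R / 2 + R / 2 : ℕ) : ℝ) ≤ ((R + 1 : ℕ) : ℝ) := by exact_mod_cast (by omega)
    push_cast at this
    linarith)
  refine ⟨x, hx, le_trans ?_ hx2⟩
  have hR : (0:ℝ) < R := by
    have : 0 < R := by omega
    exact_mod_cast this
  have h3 : (R : ℝ) / 3 ≤ ((R / 2 : ℕ) : ℝ) := by
    have : ((R : ℕ) : ℝ) ≤ ((3 * (R / 2) : ℕ) : ℝ) := by exact_mod_cast (by omega)
    push_cast at this
    linarith
  calc (R : ℝ) ^ θ = (R : ℝ) ^ θ' / (R : ℝ) ^ (θ' - θ) := by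
        rw [← Real.rpow_sub hR]
        congr 1
        ring
    _ ≤ (R : ℝ) ^ θ' / (3:ℝ) ^ θ' := by gcongr
    _ = ((R : ℝ) / 3) ^ θ' := by rw [Real.div_rpow hR.le (by norm_num)]
    _ ≤ _ := Real.rpow_le_rpow (by positivity) h3 (by linarith)

/-- one sequence is sufficient -/
lemma one_seq {a : ℕ → ℝ} (ha : Short a) {κ c θ₀ : ℝ} (hθ : 1 / 2 ≤ θ₀) (hκ : 0 ≤ κ)
    (hcond : 4 * θ₀ * (1 - θ₀) * (κ + 1) ≤ 1) (hc : 0 < c)
    (h : ∀ δ : ℝ, 0 < δ → ∃ᶠ R : ℕ in atTop, ∃ A B : ℕ, A ≤ R ∧ (R : ℝ) + c * R / Real.log R ^ κ ≤ B + 1 ∧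
      ∀ x ∈ Set.Icc (0:ℝ) 1, ‖F a A B x‖ ≤ (R : ℝ) ^ (θ₀ + δ)) :
    ∀ s : ℂ, θ₀ < s.re → riemannZeta s ≠ 0 := by
  intro s hs h0
  obtain ⟨θ, hθ1⟩ : ∃ θ, θ = (θ₀ + s.re) / 2 := ⟨_, rfl⟩
  have hθ2 : θ₀ < θ := by rw [hθ1]; linarith
  have h1 := every_block ha (θ := θ) (κ := κ) (c := c) (by linarith) hκ (by
    refine le_trans ?_ hcond
    refine mul_le_mul_of_nonneg_right ?_ (by linarith)
    nlinarith) hc ⟨s, h0, by rw [hθ1]; linarith⟩
  have h2 := h ((θ - θ₀) / 2) (by linarith)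
  obtain ⟨R, ⟨A, B, hA, hB, h3⟩, h4, h5⟩ := (h2.and_eventually (h1.and (eventually_ge_atTop 2))).exists
  obtain ⟨x, hx, hx2⟩ := h4 A B hA hB
  have h6 := h3 x hx
  have hR : (1:ℝ) < R := by
    have : 1 < R := by omega
    exact_mod_cast this
  have h7 : (R : ℝ) ^ (θ₀ + (θ - θ₀) / 2) < (R : ℝ) ^ θ := Real.rpow_lt_rpow_of_exponent_lt hR (by linarith)
  linarith

/-- **The sup norm of the Möbius exponential sum at every length.**  Here `F a A B x` is the sum of `a(n) e(nx)` over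
`A < n ≤ B`, and `a` is the Möbius function or the Liouville function. -/
theorem result (a : ℕ → ℝ) (ha : a = mu ∨ a = la) :
    -- 1. large values for every length
    (∀ θ κ c : ℝ, 1 / 2 ≤ θ → 0 ≤ κ → 4 * θ * (1 - θ) * (κ + 1) ≤ 1 → 0 < c →
      (∃ s : ℂ, riemannZeta s = 0 ∧ θ < s.re) →
      (∀ᶠ R : ℕ in atTop, ∀ A B : ℕ, A ≤ R → (R : ℝ) + c * R / Real.log R ^ κ ≤ B + 1 →
        ∃ x ∈ Set.Icc (0:ℝ) 1, (R : ℝ) ^ θ ≤ ‖F a A B x‖) ∧
      ∀ᶠ R : ℕ in atTop, ∃ x ∈ Set.Icc (0:ℝ) 1, (R : ℝ) ^ θ ≤ ‖F a 0 R x‖) ∧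
    -- 2. the bound of the problem for one sequence implies the Riemann hypothesis
    ((∀ δ : ℝ, 0 < δ → ∃ᶠ R : ℕ in atTop, ∀ x ∈ Set.Icc (0:ℝ) 1, ‖F a 0 R x‖ ≤ (R : ℝ) ^ (1 / 2 + δ)) →
      RiemannHypothesis) ∧
    (∀ c : ℝ, 0 < c → (∀ δ : ℝ, 0 < δ → ∃ᶠ R : ℕ in atTop,
      ∀ x ∈ Set.Icc (0:ℝ) 1, ‖F a R (R + ⌊c * R⌋₊) x‖ ≤ (R : ℝ) ^ (1 / 2 + δ)) → RiemannHypothesis) ∧
    -- the bound with an exponent `θ₀` for one sequence implies that the half plane `Re s > θ₀` has no zeros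
    (∀ θ₀ : ℝ, 1 / 2 ≤ θ₀ → (∀ δ : ℝ, 0 < δ → ∃ᶠ R : ℕ in atTop,
      ∀ x ∈ Set.Icc (0:ℝ) 1, ‖F a 0 R x‖ ≤ (R : ℝ) ^ (θ₀ + δ)) → ∀ s : ℂ, θ₀ < s.re → riemannZeta s ≠ 0) := by
  have hS : Short a := by
    rcases ha with rfl | rfl
    · exact short_mu
    · exact short_la
  have hfull : ∀ θ₀ : ℝ, 1 / 2 ≤ θ₀ → (∀ δ : ℝ, 0 < δ → ∃ᶠ R : ℕ in atTop,
      ∀ x ∈ Set.Icc (0:ℝ) 1, ‖F a 0 R x‖ ≤ (R : ℝ) ^ (θ₀ + δ)) → ∀ s : ℂ, θ₀ < s.re → riemannZeta s ≠ 0 := by
    intro θ₀ hθ h s hs h0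
    have h1 := full_sum hS (θ := (θ₀ + s.re) / 2) (by linarith) ⟨s, h0, by linarith⟩
    obtain ⟨R, h3, ⟨x, hx, hx2⟩, h5⟩ :=
      ((h ((s.re - θ₀) / 4) (by linarith)).and_eventually (h1.and (eventually_ge_atTop 2))).exists
    have h6 := h3 x hx
    have hR : (1:ℝ) < R := by
      have : 1 < R := by omega
      exact_mod_cast this
    have h7 : (R : ℝ) ^ (θ₀ + (s.re - θ₀) / 4) < (R : ℝ) ^ ((θ₀ + s.re) / 2) :=
      Real.rpow_lt_rpow_of_exponent_lt hR (by linarith)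
    linarith
  refine ⟨fun θ κ c h1 h2 h3 h4 h5 => ⟨every_block hS h1 h2 h3 h4 h5, full_sum hS h1 h5⟩, ?_, ?_, hfull⟩
  · intro h
    rw [Pool.Agent.W190.rh_free]
    exact hfull (1 / 2) le_rfl h
  · intro c hc h
    rw [Pool.Agent.W190.rh_free]
    refine one_seq hS (κ := 0) (c := c) le_rfl le_rfl (by norm_num) hc fun δ hδ => ?_
    refine (h δ hδ).mono fun R hR => ⟨R, R + ⌊c * R⌋₊, le_rfl, ?_, hR⟩
    rw [Real.rpow_zero, div_one]
    push_cast
    linarith [Nat.lt_floor_add_one (c * (R : ℝ))]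

end Pool.Agent.Results.MP_b6b996_nt.EveryBlock
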