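import Pool.Agent.U322.FZ6

/-!
# MP_b6b996_nt: the sup norm problem between the random model and the Moebius function

Let `A` be any set of primes. The values `μ(p) = -1` are kept at the primes of `A` and replaced by
independent random signs at all other primes; `f` is the corresponding function, supported on the
squarefree integers. For `A` the set of all primes it is the Moebius function, for `A = ∅` it is the
random (Rademacher) model. Let `τ(A)` be the growth exponent of the sup norm for the kept part, the
Moebius function restricted to the integers composed of primes of `A`.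

* Almost surely the growth exponent for `f` is equal to `max (1/2, τ(A))`. So the random signs neither
  create nor destroy large values: the bound of the problem holds for `f`, almost surely, if and only
  if it holds for the kept part.
* If the sum of `p ^ (-σ)` over `A` is finite for all `σ > 1/2`, for instance if `A` contains at most
  `x ^ (1/2 + o(1))` primes up to `x`, then the exponent is `1/2`, almost surely.
* The maximal functions of order `α > 1/2` are concentrated, uniformly in the length and in `A`: the
  product of the mean values of the maximal function and of its inverse is bounded.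

Outline. The upper bound: `F_R(x)` is a linear form in the values of the random multiplicative
function at the integers without primes in `A`, whose coefficients are sums of the kept part over
`R / d`. The lower bound: if the sign at one prime `p` is changed, then the maximal function changes
at most by the factor `(1 + p ^ (-α)) / (1 - p ^ (-α))`, and `∑ p ^ (-2 α)` is finite; so the
maximal function is concentrated, and if it is bounded with positive probability then its mean value
is bounded; the mean value of `F_R(x)` is the sum of the kept part.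
-/

set_option autoImplicit false

namespace Pool.Agent.Results.MP_b6b996_nt.FrozenPrimes

open MeasureTheory ProbabilityTheory

/-- the function supported on the squarefree integers with the value `∏_{p ∣ n} s p` at `n` -/
noncomputable def mult (s : ℕ → ℝ) (n : ℕ) : ℝ :=
  open Classical in if Squarefree n then ∏ p ∈ n.primeFactors, s p else 0

/-- `F_R(x) = ∑_{n ≤ R} (mult s)(n) e(n x)` -/
noncomputable def F (s : ℕ → ℝ) (R : ℕ) (x : ℝ) : ℂ :=
  ∑ n ∈ Finset.Icc 1 R, ((mult s n : ℝ) : ℂ) * Complex.exp (2 * Real.pi * Complex.I * n * x)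

/-- the growth exponent of the sup norm of `F_R` -/
noncomputable def growthExponent (s : ℕ → ℝ) : ℝ :=
  sInf {α : ℝ | 0 ≤ α ∧ ∃ C : ℝ, ∀ R : ℕ, 1 ≤ R → ∀ x ∈ Set.Icc (0 : ℝ) 1,
    ‖F s R x‖ ≤ C * (R : ℝ) ^ α}

/-- the maximal function of order `α`: the supremum of `|F_R(x)| / R ^ α` over all `1 ≤ R ≤ N` and
all rational `x` (by continuity the same for real `x`) -/
noncomputable def maximal (α : ℝ) (N : ℕ) (s : ℕ → ℝ) : ℝ :=
  ⨆ i : Fin N × ℚ, ‖F s (i.1 + 1) (i.2 : ℝ)‖ / ((i.1 + 1 : ℕ) : ℝ) ^ α

open Classical in
/-- `-1` at the primes of `A`, zero at the others -/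
noncomputable def kept (A : Set ℕ) (p : ℕ) : ℝ := if p ∈ A then -1 else 0

open Classical in
/-- `-1` at the primes of `A`, the values of `g` at the others -/
noncomputable def mixed (A : Set ℕ) (g : ℕ → ℝ) (p : ℕ) : ℝ := if p ∈ A then -1 else g p

lemma F_eq (s : ℕ → ℝ) (R : ℕ) (x : ℝ) : F s R x = Pool.Agent.U322.FZ.Fs s R x := by
  unfold F Pool.Agent.U322.FZ.Fs
  refine Finset.sum_congr rfl fun n _ => ?_
  congr 1
  unfold Pool.Agent.U322.FZ.e
  congr 1
  push_cast
  ring

lemma growth_eq (s : ℕ → ℝ) : growthExponent s = Pool.Agent.U322.FZ.gexp s := by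
  unfold growthExponent Pool.Agent.U322.FZ.gexp Pool.Agent.U322.FZ.Bd
  simp only [F_eq]

lemma maximal_eq (α : ℝ) (N : ℕ) (s : ℕ → ℝ) : maximal α N s = Pool.Agent.U322.FZ.MF α N s := by
  unfold maximal Pool.Agent.U322.FZ.MF
  simp only [F_eq]

/-- **The sup norm problem with a kept set of primes.** The first statement says that `mult` is the
Moebius function for `s = -1`, the case of all primes. -/
theorem result :
    (∀ n : ℕ, mult (fun _ => -1) n = ((ArithmeticFunction.moebius n : ℤ) : ℝ)) ∧
    (∀ (A : Set ℕ), (∀ p ∈ A, p.Prime) →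
      ((∀ σ : ℝ, 1 / 2 < σ → Summable (A.indicator fun p : ℕ => (p : ℝ) ^ (-σ))) →
        growthExponent (kept A) ≤ 1 / 2) ∧
      ∀ (Ω : Type) [MeasurableSpace Ω] (P : Measure Ω) [IsProbabilityMeasure P]
        (f : ℕ → Ω → ℝ), (∀ p, Measurable (f p)) → iIndepFun f P →
        (∀ p ω, f p ω = 1 ∨ f p ω = -1) → (∀ p, ∫ ω, f p ω ∂P = 0) →
        ∀ᵐ ω ∂P, growthExponent (mixed A fun p => f p ω) = max (1 / 2) (growthExponent (kept A))) ∧
    ∀ α : ℝ, 1 / 2 < α → ∃ K : ℝ, ∀ (A : Set ℕ), (∀ p ∈ A, p.Prime) →
      ∀ (Ω : Type) [MeasurableSpace Ω] (P : Measure Ω) [IsProbabilityMeasure P]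
        (f : ℕ → Ω → ℝ), (∀ p, Measurable (f p)) → iIndepFun f P →
        (∀ p ω, f p ω = 1 ∨ f p ω = -1) → (∀ p, ∫ ω, f p ω ∂P = 0) → ∀ N : ℕ, 1 ≤ N →
          (∀ ω, 1 ≤ maximal α N (mixed A fun p => f p ω)) ∧
          (∫ ω, maximal α N (mixed A fun p => f p ω) ∂P) *
            (∫ ω, (maximal α N (mixed A fun p => f p ω))⁻¹ ∂P) ≤ K := by
  refine ⟨fun n => ?_, fun A _ => ⟨fun hs => ?_, fun Ω _ P _ f hmeas hind hval hmean => ?_⟩,
    fun α hα => ⟨Real.exp (2 * ∑' d : ℕ, 1 / (d : ℝ) ^ (2 * α)),
      fun A _ Ω _ P _ f hmeas hind hval hmean N hN => ⟨fun ω => ?_, ?_⟩⟩⟩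
  · unfold mult
    by_cases h : Squarefree n
    · have h1 : n.primeFactors.card = n.primeFactorsList.length := by
        have := List.card_toFinset n.primeFactorsList
        rw [(Squarefree.nodup_primeFactorsList h).dedup] at this
        exact this
      rw [if_pos h, ArithmeticFunction.moebius_apply_of_squarefree h, Finset.prod_const,
        ArithmeticFunction.cardFactors_apply, h1]
      push_cast
      rfl
    · rw [if_neg h, ArithmeticFunction.moebius_eq_zero_of_not_squarefree h]
      simp
  · rw [growth_eq]
    exact Pool.Agent.U322.FZ.sparse hs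
  · have hS : Pool.Agent.U585.GC.Signs P f := ⟨hmeas, hind, hval, hmean⟩
    filter_upwards [Pool.Agent.U322.FZ.gexp_le hS A, Pool.Agent.U322.FZ.gexp_ge hS A]
      with ω h1 h2
    rw [growth_eq, growth_eq]
    refine le_antisymm h1 (max_le ?_ h2)
    exact Pool.Agent.U322.FZ.half_le (Pool.Agent.U322.FZ.mix_val fun p => hval p ω)
  · rw [maximal_eq]
    exact Pool.Agent.U322.FZ.one_le_MF (by linarith) hN _
  · have hS : Pool.Agent.U585.GC.Signs P f := ⟨hmeas, hind, hval, hmean⟩
    simp only [maximal_eq]
    exact Pool.Agent.U322.FZ.const_bound hS A hα hN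

end Pool.Agent.Results.MP_b6b996_nt.FrozenPrimes
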