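import Pool.Agent.U922.XR.S

set_option autoImplicit false

/-!
# MP_b6b996_nt: the sup norm of the Möbius exponential sum after almost any polynomial twist

Let `k ≥ 1`, `d ≥ 1` and let `(b_n)` be ANY sequence of complex numbers with `|b_n| ≤ 1`. For almost every real polynomial `P` of
degree at most `k` and every `ε > 0` there is `C` with `|∑_{n ≤ R} b_n e(P(n) + Q(n))| ≤ C R^(1/2 + d(d+1)/(2k(k+1)) + ε)` for
all `R ≥ 1` and ALL real polynomials `Q` of degree at most `d`. For `b = μ` and `d = 1`: the growth exponent of the sup norm of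
`∑_{n ≤ R} μ(n) e(P(n)) e(nx)` is at most `1/2 + 1/(k(k+1))` for almost every `P` of degree at most `k`, which is `2/3` for `k = 2`
(the known bound for `P = 0` is `3/4`) and tends to `1/2`.

Proof: the moment of order `k(k+1)`; for fixed power sums of degrees at most `d` the mean value over the coefficients of `P` is
bounded by the Vinogradov mean value; Cauchy's inequality over the power sums gives the supremum over the `Q`; incomplete sums
by the supremum over the linear terms.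
-/

namespace Pool.Agent.Results.MP_b6b996_nt.GenericPolynomialTwists

open Finset MeasureTheory

/-- the polynomial `θ_1 x + ... + θ_k x^k` -/
noncomputable def poly (k : ℕ) (θ : Fin k → ℝ) (x : ℝ) : ℝ := ∑ j : Fin k, θ j * x ^ ((j : ℕ) + 1)

/-- the sum `∑_{n ≤ R} b_n e(g(n))` -/
noncomputable def expSum (b : ℕ → ℂ) (g : ℝ → ℝ) (R : ℕ) : ℂ :=
  ∑ n ∈ Icc 1 R, b n * Complex.exp (2 * Real.pi * Complex.I * ((g (n : ℝ) : ℝ) : ℂ))

/-- the growth exponent of the sup norm of `∑_{n ≤ R} μ(n) e(P(n)) e(nx)`; for `P = 0` this is the exponent of the problem -/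
noncomputable def growth (P : ℝ → ℝ) : ℝ :=
  sInf {a : ℝ | 0 ≤ a ∧ ∃ C : ℝ, ∀ R : ℕ, 1 ≤ R → ∀ x : ℝ,
    ‖expSum (fun n => ((ArithmeticFunction.moebius n : ℤ) : ℂ)) (fun y => P y + y * x) R‖ ≤ C * (R : ℝ) ^ a}

lemma eval_lo (m : ℕ) (Q : Polynomial ℝ) (hQ : Q.natDegree ≤ m) (x : ℝ) :
    Q.eval x = Q.coeff 0 + Pool.Agent.U922.MV.lo m (fun j : Fin m => Q.coeff ((j : ℕ) + 1)) x := by
  rw [Polynomial.eval_eq_sum_range' (by omega : Q.natDegree < m + 1), Finset.sum_range_succ']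
  unfold Pool.Agent.U922.MV.lo
  rw [pow_zero, mul_one, add_comm, Fin.sum_univ_eq_sum_range (fun j => Q.coeff (j + 1) * x ^ (j + 1)) m]

theorem sup_all (k d : ℕ) (hk : 1 ≤ k) (hd : 1 ≤ d) (b : ℕ → ℂ) (hb : ∀ n, ‖b n‖ ≤ 1) :
    ∀ᵐ θ : Fin k → ℝ, ∀ ε : ℝ, 0 < ε → ∃ C : ℝ, ∀ R : ℕ, 1 ≤ R → ∀ Q : Polynomial ℝ, Q.natDegree ≤ d →
      ‖expSum b (fun y => poly k θ y + Q.eval y) R‖ ≤
        C * (R : ℝ) ^ (1 / 2 + (d : ℝ) * (d + 1) / (2 * (k * (k + 1))) + ε) := by
  have h1 : ∀ j : ℕ, ∀ᵐ θ : Fin k → ℝ, θ ∈ {θ : Fin k → ℝ | ∃ C : ℝ, ∀ R : ℕ, 1 ≤ R → ∀ Q : Polynomial ℝ, Q.natDegree ≤ d →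
      ‖expSum b (fun y => poly k θ y + Q.eval y) R‖ ≤
        C * (R : ℝ) ^ (1 / 2 + (d : ℝ) * (d + 1) / (2 * (k * (k + 1))) + 1 / ((j : ℝ) + 1))} := by
    intro j
    apply Pool.Agent.U922.XP.ae_of_box
    · rintro θ z ⟨C, hC⟩
      refine ⟨C, fun R hR Q hQ => ?_⟩
      refine le_trans (le_of_eq ?_) (hC R hR Q hQ)
      congr 1
      refine Finset.sum_congr rfl fun n _ => ?_
      congr 1
      have h2 := Pool.Agent.U922.XP.e_lo_per k θ z (Q.eval (n : ℝ)) n
      unfold Pool.Agent.W928.MW.e Pool.Agent.U922.MV.lo at h2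
      show Complex.exp (2 * Real.pi * Complex.I * ((poly k (θ + fun j => (z j : ℝ)) n + Q.eval (n : ℝ) : ℝ) : ℂ)) =
        Complex.exp (2 * Real.pi * Complex.I * ((poly k θ n + Q.eval (n : ℝ) : ℝ) : ℂ))
      unfold poly
      rw [add_comm (∑ j, _) (Q.eval (n : ℝ)), add_comm (∑ j, θ j * _) (Q.eval (n : ℝ))]
      exact h2
    · filter_upwards [Pool.Agent.U922.XR.ae_sup k d hk hd b hb (1 / ((j : ℝ) + 1)) (by positivity)] with θ hθ
      obtain ⟨C, hC⟩ := hθ
      refine ⟨C, fun R hR Q hQ => ?_⟩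
      refine le_trans (le_of_eq ?_) (hC R hR (fun j : Fin d => Q.coeff ((j : ℕ) + 1)))
      have h3 : expSum b (fun y => poly k θ y + Q.eval y) R =
          Pool.Agent.W928.MW.e (Q.coeff 0) * Pool.Agent.U922.XR.bsB k d R b 0 θ (fun j : Fin d => Q.coeff ((j : ℕ) + 1)) := by
        unfold Pool.Agent.U922.XR.bsB expSum
        rw [Finset.mul_sum]
        refine Finset.sum_congr rfl fun n _ => ?_
        have h4 : Complex.exp (2 * Real.pi * Complex.I * ((poly k θ (n : ℝ) + Q.eval (n : ℝ) : ℝ) : ℂ)) =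
            Pool.Agent.W928.MW.e (Q.coeff 0) * Pool.Agent.W928.MW.e (Pool.Agent.U922.MV.lo k θ ((0 + n : ℕ) : ℝ) +
              Pool.Agent.U922.MV.lo d (fun j : Fin d => Q.coeff ((j : ℕ) + 1)) n) := by
          rw [← Pool.Agent.W928.MW.e_add, eval_lo d Q hQ]
          unfold Pool.Agent.W928.MW.e
          congr 2
          rw [zero_add]
          unfold poly Pool.Agent.U922.MV.lo
          push_cast
          ring
        rw [h4, zero_add]
        ring
      rw [h3, norm_mul, Pool.Agent.W928.MW.e_norm, one_mul]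
  rw [← ae_all_iff] at h1
  filter_upwards [h1] with θ hθ ε hε
  obtain ⟨j, hj⟩ := exists_nat_ge (1 / ε)
  obtain ⟨C, hC⟩ := hθ j
  refine ⟨|C|, fun R hR Q hQ => (hC R hR Q hQ).trans ?_⟩
  have hR1 : (1 : ℝ) ≤ R := by exact_mod_cast hR
  have hjε : 1 / ((j : ℝ) + 1) ≤ ε := by
    rw [div_le_iff₀ (by positivity)]
    rw [div_le_iff₀ hε] at hj
    nlinarith
  refine mul_le_mul (le_abs_self C) ?_ (by positivity) (abs_nonneg C)
  exact Real.rpow_le_rpow_of_exponent_le hR1 (by linarith)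

/-- (1) Arbitrary bounded coefficients, almost every polynomial `P` of degree at most `k`, all polynomials `Q` of degree at most
`d` at once; (2) the growth exponent for the Möbius function is at most `1/2 + 1/(k(k+1))`. -/
theorem result :
    (∀ k d : ℕ, 1 ≤ k → 1 ≤ d → ∀ b : ℕ → ℂ, (∀ n, ‖b n‖ ≤ 1) → ∀ᵐ θ : Fin k → ℝ, ∀ ε : ℝ, 0 < ε → ∃ C : ℝ,
      ∀ R : ℕ, 1 ≤ R → ∀ Q : Polynomial ℝ, Q.natDegree ≤ d →
        ‖expSum b (fun y => poly k θ y + Q.eval y) R‖ ≤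
          C * (R : ℝ) ^ (1 / 2 + (d : ℝ) * (d + 1) / (2 * (k * (k + 1))) + ε)) ∧
    (∀ k : ℕ, 1 ≤ k → ∀ᵐ θ : Fin k → ℝ, growth (poly k θ) ≤ 1 / 2 + 1 / ((k : ℝ) * (k + 1))) := by
  refine ⟨fun k d hk hd b hb => sup_all k d hk hd b hb, fun k hk => ?_⟩
  have hb : ∀ n : ℕ, ‖((ArithmeticFunction.moebius n : ℤ) : ℂ)‖ ≤ 1 := by
    intro n
    rw [Complex.norm_intCast]
    exact_mod_cast ArithmeticFunction.abs_moebius_le_one
  filter_upwards [sup_all k 1 hk le_rfl _ hb] with θ hθ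
  have hk0 : (0 : ℝ) < k := by exact_mod_cast hk
  refine le_of_forall_pos_le_add fun ε hε => ?_
  refine csInf_le ⟨0, fun a ha => ha.1⟩ ⟨by positivity, ?_⟩
  obtain ⟨C, hC⟩ := hθ ε hε
  refine ⟨C, fun R hR x => ?_⟩
  have h1 := hC R hR (Polynomial.C x * Polynomial.X) ((Polynomial.natDegree_C_mul_le x Polynomial.X).trans Polynomial.natDegree_X_le)
  have h2 : ∀ y : ℝ, (Polynomial.C x * Polynomial.X).eval y = y * x := by
    intro y
    rw [Polynomial.eval_mul, Polynomial.eval_C, Polynomial.eval_X, mul_comm]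
  simp only [h2] at h1
  refine h1.trans (le_of_eq ?_)
  congr 2
  push_cast
  field_simp
  ring

end Pool.Agent.Results.MP_b6b996_nt.GenericPolynomialTwists
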