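import Pool.Agent.U585.SK.Ph
import Pool.Agent.U585.SK.Nl
import Pool.Agent.U585.SK.Gr

/-!
# MP_b6b996_nt: the sup norm problem in the random model of the Moebius function

In the random model of the Moebius function the values `μ(p) = -1` are replaced by independent
random signs `f p` (each sign with probability `1/2`) and `μ` by the random function supported on the
squarefree integers with the value `∏_{p ∣ n} f p` at `n`. Almost surely

* the growth exponent of the sup norm of the exponential sum is `1/2`, as asked for in the problem;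
* for all `D`, `A` and `ε > 0`: for *all* real polynomials `Q` of degree at most `D`, all real `t` with
  `|t| ≤ N^A`, all intervals `(a, b]` in `[1, N]` and all residue classes `r` modulo `q` the sum of
  `f(n) n^(it) e(Q(n))` over the `n ≡ r (mod q)` in `(a, b]` is at most `C N^ε` times the square root
  of the number of terms.

For all samples and all blocks of length at least `b^(1/2+δ)` the sup norm is at least a constant times
the square root of the length; so the bound is sharp up to `N^ε`, in all these blocks. The same upper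
bound, almost surely, for nilsequences: for every Lipschitz function `G` on `U_m(ℝ)/Γ_q` and all
polynomial sequences `A(n)` of degree at most `D` in the group `U_m(ℝ)` of the unitriangular matrices.

Outline. Hypercontractivity for the multilinear polynomials in the signs, of degree `O(log N/log log
N)`; the coefficients of a polynomial phase may be reduced modulo one, those of a polynomial sequence
in `U_m(ℝ)` modulo `Γ_q`; so there are `N^{O(1)}` sums up to a small error, and Borel-Cantelli applies.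
-/

set_option autoImplicit false

namespace Pool.Agent.Results.MP_b6b996_nt.RandomModelAllPhases

open MeasureTheory Filter Topology ProbabilityTheory

/-- the function on the integers supported on the squarefree ones, with the value
`∏_{p ∣ n} s p` at `n`; for `s = -1` it is the Moebius function -/
noncomputable def mult (s : ℕ → ℝ) (n : ℕ) : ℝ :=
  open Classical in if Squarefree n then ∏ p ∈ n.primeFactors, s p else 0

/-- `∑_{a < n ≤ b} (mult s)(n) e(n x)` -/
noncomputable def F (s : ℕ → ℝ) (a b : ℕ) (x : ℝ) : ℂ :=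
  ∑ n ∈ Finset.Ioc a b, ((mult s n : ℝ) : ℂ) * Complex.exp (2 * Real.pi * Complex.I * n * x)

/-- the growth exponent of the sup norm of `F_R(x) = ∑_{n ≤ R} (mult s)(n) e(n x)` -/
noncomputable def growthExponent (s : ℕ → ℝ) : ℝ :=
  sInf {α : ℝ | 0 ≤ α ∧ ∃ C : ℝ, ∀ R : ℕ, 1 ≤ R → ∀ x ∈ Set.Icc (0 : ℝ) 1,
    ‖F s 0 R x‖ ≤ C * (R : ℝ) ^ α}

/-- the integers `n ≡ r (mod q)` with `a < n ≤ b` -/
def terms (a b q r : ℕ) : Finset ℕ := (Finset.Ioc a b).filter fun n => n ≡ r [MOD q]

/-- the group `U_m(ℝ)` of the upper unitriangular real matrices of size `m` -/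
def U (m : ℕ) : Set (Matrix (Fin m) (Fin m) ℝ) :=
  {A | (∀ i, A i i = 1) ∧ ∀ i j, j < i → A i j = 0}

/-- the lattice `Γ_q` of the integer matrices in `U_m(ℝ)` which are congruent to one modulo `q` -/
def lattice (m q : ℕ) : Set (Matrix (Fin m) (Fin m) ℝ) :=
  {A | A ∈ U m ∧ ∀ i j, i < j → ∃ z : ℤ, A i j = q * z}

/-- `G` is a function on the nilmanifold `U_m(ℝ)/Γ_q`, Lipschitz on bounded sets of matrices -/
def OnNil (m q : ℕ) (G : Matrix (Fin m) (Fin m) ℝ → ℂ) : Prop :=
  (∀ A ∈ U m, ∀ γ ∈ lattice m q, G (A * γ) = G A) ∧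
    ∀ R : ℝ, ∃ L : ℝ, ∀ A ∈ U m, ∀ B ∈ U m, ∀ d : ℝ, (∀ i j, |A i j| ≤ R) → (∀ i j, |B i j| ≤ R) →
      (∀ i j, |A i j - B i j| ≤ d) → ‖G A - G B‖ ≤ L * d

/-- the sequences in `U_m(ℝ)` whose entries are real polynomials of degree at most `D` -/
def PolySeq (m D : ℕ) : Set (ℕ → Matrix (Fin m) (Fin m) ℝ) :=
  {A | (∀ n, A n ∈ U m) ∧ ∀ i j, ∃ Q : Polynomial ℝ, Q.natDegree ≤ D ∧
    ∀ n : ℕ, A n i j = Q.eval (n : ℝ)}

/-- The sup norm problem, with all polynomial phases in all progressions in all windows, and with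
nilsequences, in the random model. The first statement says that `mult` is the Moebius function for
`s = -1`. -/
theorem result :
    (∀ n : ℕ, mult (fun _ => -1) n = ((ArithmeticFunction.moebius n : ℤ) : ℝ)) ∧
    (∀ δ : ℝ, 0 < δ → ∃ N₀ : ℕ, ∀ s : ℕ → ℝ, (∀ p, s p = 1 ∨ s p = -1) → ∀ a b : ℕ, N₀ ≤ b →
      a ≤ b → (b : ℝ) ^ (1 / 2 + δ) ≤ b - a →
        ∃ x ∈ Set.Icc (0 : ℝ) 1, Real.sqrt (((b : ℝ) - a) / 2) ≤ ‖F s a b x‖) ∧
    ∀ (Ω : Type) [MeasurableSpace Ω] (P : Measure Ω) [IsProbabilityMeasure P]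
      (f : ℕ → Ω → ℝ), (∀ p, Measurable (f p)) → iIndepFun f P →
      (∀ p ω, f p ω = 1 ∨ f p ω = -1) → (∀ p, ∫ ω, f p ω ∂P = 0) →
      (∀ᵐ ω ∂P, growthExponent (fun p => f p ω) = 1 / 2 ∧
        ∀ (D A : ℕ) (ε : ℝ), 0 < ε → ∃ C : ℝ, ∀ N : ℕ, 1 ≤ N →
          ∀ (Q : Polynomial ℝ) (t : ℝ), Q.natDegree ≤ D → |t| ≤ (N : ℝ) ^ A →
          ∀ a b q r : ℕ, b ≤ N → 1 ≤ q →
            ‖∑ n ∈ terms a b q r, ((mult (fun p => f p ω) n : ℝ) : ℂ) *
              ((n : ℂ) ^ ((t : ℂ) * Complex.I) *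
                Complex.exp (2 * Real.pi * Complex.I * (Q.eval (n : ℝ) : ℝ)))‖ ≤
              C * (N : ℝ) ^ ε * Real.sqrt (terms a b q r).card) ∧
      ∀ m k D : ℕ, 1 ≤ k → ∀ G : Matrix (Fin m) (Fin m) ℝ → ℂ, OnNil m k G →
        ∀ᵐ ω ∂P, ∀ ε : ℝ, 0 < ε → ∃ C : ℝ, ∀ N : ℕ, 1 ≤ N → ∀ A ∈ PolySeq m D,
          ∀ a b q r : ℕ, b ≤ N → 1 ≤ q →
            ‖∑ n ∈ terms a b q r, ((mult (fun p => f p ω) n : ℝ) : ℂ) * G (A n)‖ ≤
              C * (N : ℝ) ^ ε * Real.sqrt (terms a b q r).card := by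
  have hsharp : ∀ δ : ℝ, 0 < δ → ∃ N₀ : ℕ, ∀ s : ℕ → ℝ, (∀ p, s p = 1 ∨ s p = -1) → ∀ a b : ℕ,
      N₀ ≤ b → a ≤ b → (b : ℝ) ^ (1 / 2 + δ) ≤ b - a →
        ∃ x ∈ Set.Icc (0 : ℝ) 1, Real.sqrt (((b : ℝ) - a) / 2) ≤ ‖F s a b x‖ := by
    intro δ hδ
    classical
    obtain ⟨N₀, hN₀⟩ := Pool.Agent.U585.SK.sqf_window (min δ (1 / 2)) (lt_min hδ (by norm_num))
      (min_le_right _ _)
    refine ⟨max N₀ 1, fun s hs a b hb hab hw => ?_⟩
    have hb1 : (1 : ℝ) ≤ b := by exact_mod_cast (le_max_right N₀ 1).trans hb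
    have h1 : (b : ℝ) ^ (1 / 2 + min δ (1 / 2)) ≤ b - a := by
      refine le_trans (Real.rpow_le_rpow_of_exponent_le hb1 ?_) hw
      linarith [min_le_left δ (1 / 2)]
    have h2 := hN₀ a b ((le_max_left N₀ 1).trans hb) hab h1
    have h3 : a < b := by
      by_contra h
      have h4 : a = b := by omega
      rw [h4, sub_self] at h1
      have : 0 < (b : ℝ) ^ (1 / 2 + min δ (1 / 2)) := by positivity
      linarith
    obtain ⟨j, hj, h5⟩ := Pool.Agent.U585.SK.large (Pool.Agent.U585.GC.rf s) a (b - a) (by omega)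
    have h6 : a + (b - a) = b := by omega
    rw [h6] at h5
    have hba : (0 : ℝ) < (b - a : ℕ) := by exact_mod_cast (by omega : 0 < b - a)
    refine ⟨(j : ℝ) / (b - a : ℕ), ⟨by positivity, ?_⟩, ?_⟩
    · rw [div_le_one hba]
      exact_mod_cast hj.le
    · have h7 : ((b : ℝ) - a) / 2 ≤ ‖F s a b ((j : ℝ) / (b - a : ℕ))‖ ^ 2 := by
        refine h2.trans (le_trans (le_of_eq ?_) h5)
        rw [Finset.card_filter]
        push_cast
        refine Finset.sum_congr rfl fun n _ => ?_
        rw [Pool.Agent.U585.SK.rf_sq hs]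
      rw [← Real.sqrt_sq (norm_nonneg (F s a b ((j : ℝ) / (b - a : ℕ))))]
      exact Real.sqrt_le_sqrt h7
  refine ⟨fun n => ?_, hsharp, fun Ω _ P _ f hmeas hind hval hmean => ⟨?_, ?_⟩⟩
  · unfold mult
    by_cases h : Squarefree n
    · have h1 : n.primeFactors.card = n.primeFactorsList.length := by
        have := List.card_toFinset n.primeFactorsList
        rw [(Squarefree.nodup_primeFactorsList h).dedup] at this
        exact this
      rw [if_pos h, ArithmeticFunction.moebius_apply_of_squarefree h, Finset.prod_const,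
        ArithmeticFunction.cardFactors_apply, h1]
      push_cast
      rfl
    · rw [if_neg h, ArithmeticFunction.moebius_eq_zero_of_not_squarefree h]
      simp
  · have hS : Pool.Agent.U585.GC.Signs P f := ⟨hmeas, hind, hval, hmean⟩
    have hall : ∀ᵐ ω ∂P, ∀ D A : ℕ, ∀ ε : ℝ, 0 < ε → ∃ C : ℝ, 0 < C ∧ ∀ N : ℕ, 1 ≤ N →
        ∀ v ∈ Pool.Agent.U585.SK.Ph D A N, ∀ a b q r : ℕ, b ≤ N → 1 ≤ q →
          ‖∑ n ∈ Pool.Agent.U585.SK.pt a b q r,
            v n * ((Pool.Agent.U585.GC.rf (fun p => f p ω) n : ℝ) : ℂ)‖ ≤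
            C * (N : ℝ) ^ ε * √((Pool.Agent.U585.SK.pt a b q r).card) := by
      rw [ae_all_iff]
      intro D
      rw [ae_all_iff]
      intro A
      exact Pool.Agent.U585.SK.cov hS (Pool.Agent.U585.SK.cov_Ph D A)
    filter_upwards [hall] with ω hω
    have hmain : ∀ (D A : ℕ) (ε : ℝ), 0 < ε → ∃ C : ℝ, 0 < C ∧ ∀ N : ℕ, 1 ≤ N →
          ∀ (Q : Polynomial ℝ) (t : ℝ), Q.natDegree ≤ D → |t| ≤ (N : ℝ) ^ A →
          ∀ a b q r : ℕ, b ≤ N → 1 ≤ q →
            ‖∑ n ∈ terms a b q r, ((mult (fun p => f p ω) n : ℝ) : ℂ) *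
              ((n : ℂ) ^ ((t : ℂ) * Complex.I) *
                Complex.exp (2 * Real.pi * Complex.I * (Q.eval (n : ℝ) : ℝ)))‖ ≤
              C * (N : ℝ) ^ ε * Real.sqrt (terms a b q r).card := by
      intro D A ε hε
      obtain ⟨C, hC, h⟩ := hω D A ε hε
      refine ⟨C, hC, fun N hN Q t hQ ht a b q r hb hq => ?_⟩
      have h1 := h N hN (fun n : ℕ =>
        Complex.exp (((t * Real.log n + 2 * Real.pi * Q.eval (n : ℝ) : ℝ) : ℂ) * Complex.I))
        ⟨Q, t, hQ, ht, rfl⟩ a b q r hb hq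
      refine le_trans (le_of_eq ?_) h1
      congr 1
      refine Finset.sum_congr rfl fun n hn => ?_
      have hn0 : n ≠ 0 := by
        unfold Pool.Agent.U585.SK.pt at hn
        rw [Finset.mem_filter, Finset.mem_Ioc] at hn
        omega
      rw [mul_comm]
      congr 1
      rw [Complex.cpow_def_of_ne_zero (by exact_mod_cast hn0), ← Complex.exp_add,
        ← Complex.natCast_log]
      congr 1
      push_cast
      ring
    refine ⟨?_, fun D A ε hε => ?_⟩
    · -- the growth exponent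
      refine csInf_eq_of_forall_ge_of_forall_gt_exists_lt ?_ ?_ ?_
      · refine ⟨1, zero_le_one, 1, fun R hR x _ => ?_⟩
        unfold F
        refine (norm_sum_le _ _).trans ?_
        calc ∑ n ∈ Finset.Ioc 0 R, ‖((mult (fun p => f p ω) n : ℝ) : ℂ) *
              Complex.exp (2 * Real.pi * Complex.I * n * x)‖ ≤ ∑ _n ∈ Finset.Ioc 0 R, (1 : ℝ) := by
              refine Finset.sum_le_sum fun n _ => ?_
              have h1 : ‖Complex.exp (2 * Real.pi * Complex.I * n * x)‖ = 1 := by
                have : (2 * Real.pi * Complex.I * n * x : ℂ) =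
                    ((2 * Real.pi * n * x : ℝ) : ℂ) * Complex.I := by push_cast; ring
                rw [this, Complex.norm_exp_ofReal_mul_I]
              rw [norm_mul, h1, mul_one, Complex.norm_real, Real.norm_eq_abs]
              exact Pool.Agent.U585.SK.rf_le (fun p => hval p ω) n
          _ = _ := by simp
      · rintro α ⟨hα0, C, hC⟩
        by_contra hlt
        rw [not_le] at hlt
        obtain ⟨N₀, hN₀⟩ := hsharp (1 / 2) (by norm_num)
        have ht : Tendsto (fun R : ℕ => (R : ℝ) ^ (1 / 2 - α)) atTop atTop :=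
          (tendsto_rpow_atTop (by linarith)).comp tendsto_natCast_atTop_atTop
        obtain ⟨R, hR1, hR2⟩ := ((ht.eventually_gt_atTop (2 * C)).and
          (eventually_ge_atTop (max N₀ 1))).exists
        have hR3 : 1 ≤ R := (le_max_right _ _).trans hR2
        have hR0 : (0 : ℝ) < R := by exact_mod_cast hR3
        obtain ⟨x, hx, h1⟩ := hN₀ (fun p => f p ω) (fun p => hval p ω) 0 R
          ((le_max_left _ _).trans hR2) (Nat.zero_le _) (by
            rw [show (1 / 2 + 1 / 2 : ℝ) = 1 by norm_num, Real.rpow_one]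
            simp)
        have h2 := h1.trans (hC R hR3 x hx)
        simp only [Nat.cast_zero, sub_zero] at h2
        have h3 : √(R : ℝ) ≤ 2 * √((R : ℝ) / 2) := by
          have : (R : ℝ) ≤ 2 ^ 2 * ((R : ℝ) / 2) := by linarith
          calc √(R : ℝ) ≤ √(2 ^ 2 * ((R : ℝ) / 2)) := Real.sqrt_le_sqrt this
            _ = _ := by rw [Real.sqrt_mul (by norm_num), Real.sqrt_sq (by norm_num)]
        have h4 : √(R : ℝ) = (R : ℝ) ^ (1 / 2 - α) * (R : ℝ) ^ α := by
          rw [Real.sqrt_eq_rpow, ← Real.rpow_add hR0]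
          congr 1
          ring
        have h5 : 0 < (R : ℝ) ^ α := by positivity
        nlinarith
      · intro w hw
        refine ⟨(w + 1 / 2) / 2, ⟨by linarith, ?_⟩, by linarith⟩
        obtain ⟨C, hC0, hC⟩ := hmain 1 0 ((w + 1 / 2) / 2 - 1 / 2) (by linarith)
        refine ⟨C, fun R hR x hx => ?_⟩
        have hR0 : (0 : ℝ) < R := by exact_mod_cast hR
        have h1 := hC R hR (Polynomial.C x * Polynomial.X) 0
          ((Polynomial.natDegree_C_mul_le _ _).trans Polynomial.natDegree_X_le) (by simp) 0 R 1 0 le_rfl le_rfl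
        have h2 : terms 0 R 1 0 = Finset.Ioc 0 R := by
          unfold terms
          refine Finset.filter_true_of_mem fun n _ => Nat.modEq_one
        rw [h2, Nat.card_Ioc, Nat.sub_zero] at h1
        have h3 : F (fun p => f p ω) 0 R x = ∑ n ∈ Finset.Ioc 0 R,
            ((mult (fun p => f p ω) n : ℝ) : ℂ) * ((n : ℂ) ^ (((0 : ℝ) : ℂ) * Complex.I) *
              Complex.exp (2 * Real.pi * Complex.I *
                ((Polynomial.C x * Polynomial.X).eval (n : ℝ) : ℝ))) := by
          unfold F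
          refine Finset.sum_congr rfl fun n _ => ?_
          congr 1
          rw [Complex.ofReal_zero, zero_mul, Complex.cpow_zero, one_mul]
          congr 1
          simp only [Polynomial.eval_mul, Polynomial.eval_C, Polynomial.eval_X]
          push_cast
          ring
        rw [h3]
        refine h1.trans (le_of_eq ?_)
        rw [mul_assoc, Real.sqrt_eq_rpow, ← Real.rpow_add hR0]
        congr 2
        ring
    · obtain ⟨C, _, h⟩ := hmain D A ε hε
      exact ⟨C, h⟩
  · intro m k D hk G hG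
    have hS : Pool.Agent.U585.GC.Signs P f := ⟨hmeas, hind, hval, hmean⟩
    have hG' : Pool.Agent.U585.SK.LipNil m k G := by
      refine ⟨fun A γ hA hγ => hG.1 A hA γ hγ, fun R => ?_⟩
      obtain ⟨L, hL⟩ := hG.2 R
      exact ⟨L, fun A B d hA hB h1 h2 h3 => hL A hA B hB d h1 h2 h3⟩
    filter_upwards [Pool.Agent.U585.SK.cov hS (Pool.Agent.U585.SK.cov_Ns D hk hG')]
      with ω hω ε hε
    obtain ⟨C, _, h⟩ := hω ε hε
    refine ⟨C, fun N hN A hA a b q r hb hq => ?_⟩
    have h1 := h N hN (fun n => G (A n)) ⟨A, ⟨hA.1, hA.2⟩, rfl⟩ a b q r hb hq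
    refine le_trans (le_of_eq ?_) h1
    congr 1
    exact Finset.sum_congr rfl fun n _ => mul_comm _ _

end Pool.Agent.Results.MP_b6b996_nt.RandomModelAllPhases
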